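import Pool.Agent.H2.G1.Stmts

/-!
# CONE: the cells at the cone point
-/

open Finset

namespace Pool.Agent.H45.G1

open Pool.Agent.H95.G1 Pool.Agent.H95.TB Pool.Agent.H2.G1

/-- the cone point -/
noncomputable def S4 : Fin 5 → ℝ := fun s => if s = 4 then 1 else 0

/-- cells with a cone slot -/
def inC (f : Fin 24) : Bool := decide (f.1 < 5) || (decide (13 ≤ f.1) && decide (f.1 < 17))

lemma reach_trans {f P s g Q} (h : Reach f P s g Q) : ∀ {t k R}, Reach g Q t k R → Reach f P (s + t) k R := by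
  induction h with
  | refl f P => intro t k R h2; rw [zero_add]; exact h2
  | step f P a h t g Q hr ih =>
    intro t' k R h2
    rw [add_assoc]
    exact Reach.step f P a h _ k R (ih h2)

lemma map_sum (c : Fin 5 → ℝ) (l : List (Fin 5)) :
    (l.map fun s => S4 s / c s).sum = (l.count 4 : ℝ) / c 4 := by
  induction l with
  | nil => simp
  | cons s l ih =>
    rw [List.map_cons, List.sum_cons, ih, List.count_cons]
    by_cases h : s = 4
    · subst h
      simp [S4]
      ring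
    · simp [S4, h]

lemma tp_S4 : ∀ a b : Fin 5, a ≠ 4 → b ≠ 4 → tp a b S4 = S4 := by
  intro a b ha hb
  funext s
  unfold tp
  refine Fin.succAboveCases b ?_ ?_ s
  · rw [Fin.insertNth_apply_same]
    unfold S4
    rw [if_neg hb]
  · intro j
    rw [Fin.insertNth_apply_succAbove]
    unfold S4
    have : ∀ a b : Fin 5, a ≠ 4 → b ≠ 4 → ∀ j : Fin 4, (a.succAbove j = 4 ↔ b.succAbove j = 4) := by decide
    simp only [this a b ha hb j]

/-- number of half turns of a crossing -/
def hc (f : Fin 24) (a : Fin 5) : ℕ := (pfx f a).count 4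

lemma tab_cone : ∀ f : Fin 24, inC f = true → ∀ a : Fin 5, a ≠ 4 →
    gs f a ≠ 4 ∧ inC (gc f a) = true ∧ (wd (gc f a)).count 4 = 2 := by
  decide +kernel

lemma th_S4 (f : Fin 24) (hf : inC f = true) (a : Fin 5) (ha : a ≠ 4) : th f a S4 = (hc f a : ℝ) / 2 := by
  obtain ⟨h1, _, h3⟩ := tab_cone f hf a ha
  unfold th
  rw [tp_S4 a _ ha h1, map_sum (fun s => ((wd (gc f a)).count s : ℝ)), h3]
  unfold hc
  norm_num

/-- the end of a walk -/
def wk : List (Fin 5) → Fin 24 → Fin 24 × ℕ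
  | [], f => (f, 0)
  | a :: l, f => ((wk l (gc f a)).1, hc f a + (wk l (gc f a)).2)

lemma reach_wk (l : List (Fin 5)) (hl : ∀ a ∈ l, a ≠ 4) : ∀ f : Fin 24, inC f = true →
    Reach f S4 (((wk l f).2 : ℝ) / 2) (wk l f).1 S4 := by
  induction l with
  | nil =>
    intro f _
    have : (((wk [] f).2 : ℝ) / 2) = 0 := by simp [wk]
    rw [this]
    exact Reach.refl f S4
  | cons a l ih =>
    intro f hf
    have ha : a ≠ 4 := hl a (List.mem_cons_self)
    obtain ⟨h1, h2, _⟩ := tab_cone f hf a ha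
    have h4 := ih (fun x hx => hl x (List.mem_cons_of_mem _ hx)) (gc f a) h2
    have h5 : (((wk (a :: l) f).2 : ℝ) / 2) = th f a S4 + ((wk l (gc f a)).2 : ℝ) / 2 := by
      rw [th_S4 f hf a ha]
      simp only [wk]
      push_cast
      ring
    rw [h5]
    refine Reach.step f S4 a ?_ _ _ _ ?_
    · unfold S4; rw [if_neg ha]
    · rw [tp_S4 a _ ha h1]
      exact h4

/-- the walks -/
def toZ (f : Fin 24) : List (Fin 5) :=
  if f.1 = 1 then [3] else if f.1 = 2 then [1, 0] else if f.1 = 3 then [0, 3] else if f.1 = 4 then [3]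
  else if f.1 = 13 then [0, 1, 3] else if f.1 = 14 then [1, 3] else if f.1 = 15 then [2, 1, 3]
  else if f.1 = 16 then [1, 0, 3] else []

def frZ (f : Fin 24) : List (Fin 5) :=
  if f.1 = 1 then [0] else if f.1 = 2 then [0, 0] else if f.1 = 3 then [1, 1] else if f.1 = 4 then [1]
  else if f.1 = 13 then [0, 1, 3] else if f.1 = 14 then [0, 1] else if f.1 = 15 then [0, 1, 0]
  else if f.1 = 16 then [1, 1, 1] else []

def lp (k : ℕ) : List (Fin 5) := if k = 0 then [] else [1, 0]

lemma tab_walk : ∀ f : Fin 24, inC f = true → ∀ g : Fin 24, inC g = true → ∀ k : Fin 2,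
    (∀ a ∈ toZ f ++ lp k.1 ++ frZ g, a ≠ 4) ∧ (wk (toZ f ++ lp k.1 ++ frZ g) f).1 = g ∧
      (wk (toZ f ++ lp k.1 ++ frZ g) f).2 % 2 = k.1 := by
  decide +kernel

lemma tab_p : ∀ f : Fin 24, inC f = true → ∀ s : Fin 5, (tb f s % 8 = 3 ↔ s = 4) := by
  decide +kernel

lemma tab_np : ∀ f : Fin 24, inC f = false → ∀ s : Fin 5, tb f s % 8 ≠ 3 := by
  decide +kernel

lemma cone_point (f : Fin 24) (P : Fin 5 → ℝ) (hP : Sim P) (h : (ed f P).p = 1) : inC f = true ∧ P = S4 := by
  have hc : inC f = true := by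
    by_contra hcon
    have hcon' : inC f = false := by simpa using hcon
    have h0 : (ed f P).p = 0 := by
      show (∑ s, if tb f s % 8 = 3 then P s else 0) = 0
      refine Finset.sum_eq_zero fun s _ => ?_
      rw [if_neg (tab_np f hcon' s)]
    rw [h0] at h
    exact zero_ne_one h
  refine ⟨hc, ?_⟩
  have h1 : P 4 = 1 := by
    have h2 : (ed f P).p = P 4 := by
      show (∑ s, if tb f s % 8 = 3 then P s else 0) = P 4
      simp only [tab_p f hc]
      rw [Finset.sum_ite_eq' Finset.univ (4 : Fin 5) P]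
      simp
    rw [← h2, h]
  have hs := hP.2
  have hn := hP.1
  rw [Fin.sum_univ_five] at hs
  have e0 := hn 0
  have e1 := hn 1
  have e2 := hn 2
  have e3 := hn 3
  funext s
  fin_cases s
  · show P 0 = S4 0
    simp [S4]; linarith
  · show P 1 = S4 1
    simp [S4]; linarith
  · show P 2 = S4 2
    simp [S4]; linarith
  · show P 3 = S4 3
    simp [S4]; linarith
  · show P 4 = S4 4
    simp [S4]; linarith

theorem cone : CONE := by
  intro f g P Q hP hQ h1 h2 m
  obtain ⟨hf, rfl⟩ := cone_point f P hP h1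
  obtain ⟨hg, rfl⟩ := cone_point g Q hQ h2
  obtain ⟨k, hk⟩ : ∃ k : Fin 2, (m - k.1) % 2 = 0 := by
    rcases Int.emod_two_eq_zero_or_one m with h | h
    · exact ⟨0, by simpa using h⟩
    · refine ⟨1, ?_⟩
      simp
      omega
  obtain ⟨ha, hb, hc⟩ := tab_walk f hf g hg k
  have h3 := reach_wk _ ha f hf
  rw [hb] at h3
  refine ⟨_, (((wk (toZ f ++ lp k.1 ++ frZ g) f).2 : ℤ) - m) / 2, h3, ?_⟩
  have h4 : 2 * ((((wk (toZ f ++ lp k.1 ++ frZ g) f).2 : ℤ) - m) / 2) =
      ((wk (toZ f ++ lp k.1 ++ frZ g) f).2 : ℤ) - m := by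
    apply Int.mul_ediv_cancel'
    have h5 : ((wk (toZ f ++ lp k.1 ++ frZ g) f).2 : ℤ) % 2 = (k.1 : ℤ) := by
      exact_mod_cast hc
    omega
  have h6 := congrArg (fun z : ℤ => (z : ℝ)) h4
  push_cast at h6
  linarith

end Pool.Agent.H45.G1
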